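import Pool.Agent.helper48.PR.SpecT

/-!
# Project pr, row TD: the commutant of a matrix with irreducible rational characteristic polynomial
-/

set_option autoImplicit false

namespace Pool.Agent.PR

open Matrix Polynomial

/-- simultaneous diagonalisation: `M` with a basis of eigenvectors with distinct eigenvalues,
`B` commuting with `M` -/
theorem TD_diag {K : Type} [Field K] {n : ℕ} {I : Type} [Fintype I] [DecidableEq I]
    (M B : Matrix (Fin n) (Fin n) K) (hBM : B * M = M * B) (lam : I → K)
    (hlam : Function.Injective lam) (b : Module.Basis I K (Fin n → K))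
    (hb : ∀ i, M *ᵥ b i = lam i • b i) :
    ∃ β : I → K, (∀ i, B *ᵥ b i = β i • b i) ∧
      ∀ j : ℕ, (B * M ^ j).trace = ∑ i, β i * lam i ^ j := by
  have hco : ∀ (t : I) (w : Fin n → K), b.repr (M *ᵥ w) t = lam t * b.repr w t := by
    intro t w
    have h : (b.coord t) ∘ₗ (Matrix.toLin' M) = lam t • b.coord t := by
      apply b.ext
      intro i
      rw [LinearMap.comp_apply, Matrix.toLin'_apply, hb, map_smul, LinearMap.smul_apply,
        Module.Basis.coord_apply, Module.Basis.repr_self]
      by_cases hit : i = t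
      · rw [hit]
      · rw [Finsupp.single_apply, if_neg hit, smul_zero, smul_zero]
    have h' := LinearMap.congr_fun h w
    rw [LinearMap.comp_apply, Matrix.toLin'_apply, LinearMap.smul_apply, Module.Basis.coord_apply,
      Module.Basis.coord_apply, smul_eq_mul] at h'
    exact h'
  have hB : ∀ i, B *ᵥ b i = b.repr (B *ᵥ b i) i • b i := by
    intro i
    have h1 : M *ᵥ (B *ᵥ b i) = lam i • (B *ᵥ b i) := by
      rw [Matrix.mulVec_mulVec, ← hBM, ← Matrix.mulVec_mulVec, hb, Matrix.mulVec_smul]
    have h2 : ∀ t, t ≠ i → b.repr (B *ᵥ b i) t = 0 := by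
      intro t ht
      have h3 := hco t (B *ᵥ b i)
      rw [h1, map_smul, Finsupp.smul_apply, smul_eq_mul] at h3
      have h4 : (lam i - lam t) * b.repr (B *ᵥ b i) t = 0 := by rw [sub_mul, h3, sub_self]
      rcases mul_eq_zero.1 h4 with h | h
      · exact absurd (hlam (sub_eq_zero.1 h)).symm ht
      · exact h
    conv_lhs => rw [← b.sum_repr (B *ᵥ b i)]
    exact Finset.sum_eq_single i (fun t _ ht => by rw [h2 t ht, zero_smul])
      (fun h => absurd (Finset.mem_univ _) h)
  refine ⟨fun i => b.repr (B *ᵥ b i) i, hB, fun j => ?_⟩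
  have hpow : ∀ i, (M ^ j) *ᵥ b i = lam i ^ j • b i := by
    intro i
    induction j with
    | zero => simp
    | succ j ih =>
      rw [pow_succ', ← Matrix.mulVec_mulVec, ih, Matrix.mulVec_smul, hb, smul_smul, pow_succ]
  rw [← Matrix.trace_toLin'_eq, LinearMap.trace_eq_matrix_trace K b, Matrix.trace]
  refine Finset.sum_congr rfl fun i _ => ?_
  rw [Matrix.diag_apply, LinearMap.toMatrix_apply, Matrix.toLin'_apply, ← Matrix.mulVec_mulVec,
    hpow, Matrix.mulVec_smul, map_smul, Finsupp.smul_apply, smul_eq_mul, mul_comm]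

theorem TD : TD_stmt := by
  intro n F _ _ M B g hg hM hBM htr
  have : Fact (Irreducible g) := ⟨hg⟩
  have hg0 : g ≠ 0 := hg.ne_zero
  obtain ⟨ι, hι⟩ : ∃ ι : F →+* AlgebraicClosure F, ι = algebraMap F (AlgebraicClosure F) :=
    ⟨_, rfl⟩
  have : CharZero (AlgebraicClosure F) := inferInstance
  -- degree
  have hdeg : g.natDegree = n := by
    have h1 := congrArg natDegree hM
    rw [Matrix.charpoly_natDegree_eq_dim, Fintype.card_fin, natDegree_map] at h1
    exact h1.symm
  have : FiniteDimensional ℚ (AdjoinRoot g) := (AdjoinRoot.powerBasis hg0).finite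
  have hfr : Module.finrank ℚ (AdjoinRoot g) = n := by
    rw [(AdjoinRoot.powerBasis hg0).finrank, AdjoinRoot.powerBasis_dim, hdeg]
  have hcard : Fintype.card (AdjoinRoot g →ₐ[ℚ] AlgebraicClosure F) = n := by
    rw [AlgHom.card, hfr]
  have hlam : Function.Injective fun s : AdjoinRoot g →ₐ[ℚ] AlgebraicClosure F =>
      s (AdjoinRoot.root g) := by
    intro s t hst
    exact AdjoinRoot.algHom_ext hst
  have haev : ∀ p : ℚ[X], (aeval (AdjoinRoot.root g) p : AdjoinRoot g) = AdjoinRoot.mk g p := by
    intro p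
    have h1 : (aeval (AdjoinRoot.root g) : ℚ[X] →ₐ[ℚ] AdjoinRoot g).toRingHom =
        AdjoinRoot.mk g := by
      refine Polynomial.ringHom_ext' (Subsingleton.elim _ _) ?_
      show aeval (AdjoinRoot.root g) (X : ℚ[X]) = AdjoinRoot.mk g X
      rw [aeval_X, AdjoinRoot.mk_X]
    exact RingHom.congr_fun h1 p
  -- eigenvectors
  have hM' : (M.map ι).charpoly = g.map (algebraMap ℚ (AlgebraicClosure F)) := by
    rw [Matrix.charpoly_map, hM, Polynomial.map_map]
    congr 1
    exact Subsingleton.elim _ _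
  have hev : ∀ s : AdjoinRoot g →ₐ[ℚ] AlgebraicClosure F, ∃ v,
      Module.End.HasEigenvector (Matrix.toLin' (M.map ι)) (s (AdjoinRoot.root g)) v := by
    intro s
    have h1 : Module.End.HasEigenvalue (Matrix.toLin' (M.map ι)) (s (AdjoinRoot.root g)) := by
      rw [Module.End.hasEigenvalue_iff_isRoot_charpoly, Matrix.charpoly_toLin', hM', IsRoot.def,
        eval_map, ← aeval_def, aeval_algHom_apply, haev, AdjoinRoot.mk_self,
        map_zero]
    exact h1.exists_hasEigenvector
  choose v hv using hev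
  have hli : LinearIndependent (AlgebraicClosure F) v :=
    Module.End.eigenvectors_linearIndependent' _ _ hlam v hv
  have hsp := hli.span_eq_top_of_card_eq_finrank' (by rw [hcard, Module.finrank_fin_fun])
  obtain ⟨b, hb⟩ : ∃ b : Module.Basis (AdjoinRoot g →ₐ[ℚ] AlgebraicClosure F)
      (AlgebraicClosure F) (Fin n → AlgebraicClosure F), ∀ s, b s = v s :=
    ⟨Module.Basis.mk hli hsp.ge, fun s => Module.Basis.mk_apply _ _ s⟩
  have hbM : ∀ s, (M.map ι) *ᵥ b s = s (AdjoinRoot.root g) • b s := by
    intro s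
    rw [hb, ← Matrix.toLin'_apply]
    exact (hv s).apply_eq_smul
  have hBM' : B.map ι * M.map ι = M.map ι * B.map ι := by
    rw [← Matrix.map_mul, ← Matrix.map_mul, hBM]
  classical
  obtain ⟨β, hβ, htrβ⟩ := TD_diag (M.map ι) (B.map ι) hBM' _ hlam b hbM
  -- the rational traces
  choose r hr using htr
  have htr' : ∀ j : ℕ, ∑ s : AdjoinRoot g →ₐ[ℚ] AlgebraicClosure F,
      β s * s (AdjoinRoot.root g) ^ j = (r j : AlgebraicClosure F) := by
    intro j
    rw [← htrβ j, ← Matrix.map_pow, ← Matrix.map_mul, ← map_ratCast ι (r j), ← hr j]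
    exact (AddMonoidHom.map_trace ι.toAddMonoidHom _).symm
  -- an element of the field with these traces
  obtain ⟨y, hy⟩ : ∃ y : AdjoinRoot g, ∀ j < n,
      Algebra.trace ℚ (AdjoinRoot g) (y * AdjoinRoot.root g ^ j) = r j := by
    have hnd := traceForm_nondegenerate ℚ (AdjoinRoot g)
    obtain ⟨φ, hφ⟩ : ∃ φ : AdjoinRoot g →ₗ[ℚ] ℚ, ∀ j < n, φ (AdjoinRoot.root g ^ j) = r j := by
      refine ⟨(AdjoinRoot.powerBasis hg0).basis.constr ℚ (fun j => r j), fun j hj => ?_⟩
      have hj' : j < (AdjoinRoot.powerBasis hg0).dim := by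
        rw [AdjoinRoot.powerBasis_dim, hdeg]; exact hj
      have h1 := (AdjoinRoot.powerBasis hg0).basis.constr_basis ℚ
        (fun j => r (j : ℕ)) ⟨j, hj'⟩
      rw [PowerBasis.basis_eq_pow, AdjoinRoot.powerBasis_gen] at h1
      exact h1
    refine ⟨(LinearMap.BilinForm.toDual _ hnd).symm φ, fun j hj => ?_⟩
    rw [← Algebra.traceForm_apply, LinearMap.BilinForm.apply_toDual_symm_apply]
    exact hφ j hj
  have hβy : ∀ s : AdjoinRoot g →ₐ[ℚ] AlgebraicClosure F, β s = s y := by
    let e : Fin n ≃ (AdjoinRoot g →ₐ[ℚ] AlgebraicClosure F) :=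
      (Fintype.equivFinOfCardEq hcard).symm
    have h0 : (fun i : Fin n => β (e i) - e i y) = 0 := by
      refine Matrix.eq_zero_of_forall_pow_sum_mul_pow_eq_zero
        (f := fun i : Fin n => e i (AdjoinRoot.root g)) (fun i j hij => e.injective (hlam hij)) ?_
      intro j
      have h1 : ∑ s : AdjoinRoot g →ₐ[ℚ] AlgebraicClosure F,
          s y * s (AdjoinRoot.root g) ^ (j : ℕ) = (r j : AlgebraicClosure F) := by
        have h2 := trace_eq_sum_embeddings (K := ℚ) (L := AdjoinRoot g) (AlgebraicClosure F)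
          (x := y * AdjoinRoot.root g ^ (j : ℕ))
        rw [hy j j.2] at h2
        rw [← eq_ratCast (algebraMap ℚ (AlgebraicClosure F)) (r j), h2]
        exact Finset.sum_congr rfl fun s _ => by rw [map_mul, map_pow]
      have h3 : ∑ i : Fin n, (β (e i) - e i y) * e i (AdjoinRoot.root g) ^ (j : ℕ) =
          ∑ s : AdjoinRoot g →ₐ[ℚ] AlgebraicClosure F,
            (β s - s y) * s (AdjoinRoot.root g) ^ (j : ℕ) :=
        Equiv.sum_comp e fun s => (β s - s y) * s (AdjoinRoot.root g) ^ (j : ℕ)
      rw [h3]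
      simp only [sub_mul]
      rw [Finset.sum_sub_distrib, htr' j, h1, sub_self]
    intro s
    have h4 := congrFun h0 (e.symm s)
    simp only [Equiv.apply_symm_apply, Pi.zero_apply] at h4
    exact sub_eq_zero.1 h4
  obtain ⟨q, rfl⟩ := AdjoinRoot.mk_surjective y
  refine ⟨q, ?_⟩
  have hinj : Function.Injective (fun A : Matrix (Fin n) (Fin n) F => A.map ι) :=
    Matrix.map_injective ι.injective
  apply hinj
  show B.map ι = (aeval M (q.map (algebraMap ℚ F))).map ι
  have e1 : (aeval M (q.map (algebraMap ℚ F))).map ι =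
      aeval (M.map ι) (q.map (algebraMap ℚ (AlgebraicClosure F))) := by
    have e2 : q.map (algebraMap ℚ (AlgebraicClosure F)) = (q.map (algebraMap ℚ F)).map ι := by
      rw [Polynomial.map_map]
      congr 1
      exact Subsingleton.elim _ _
    rw [e2]
    have e3 : (algebraMap (AlgebraicClosure F)
        (Matrix (Fin n) (Fin n) (AlgebraicClosure F))).comp ι =
        (ι.mapMatrix).comp (algebraMap F (Matrix (Fin n) (Fin n) F)) := by
      ext a i j
      simp only [RingHom.comp_apply, RingHom.mapMatrix_apply, Matrix.map_apply,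
        Matrix.algebraMap_matrix_apply]
      split_ifs
      · rfl
      · rw [map_zero]
    exact Polynomial.map_aeval_eq_aeval_map e3 (q.map (algebraMap ℚ F)) M
  rw [e1]
  apply Matrix.toLin'.injective
  apply b.ext
  intro s
  have h5 : Matrix.toLin' (aeval (M.map ι) (q.map (algebraMap ℚ (AlgebraicClosure F)))) =
      aeval (Matrix.toLin' (M.map ι)) (q.map (algebraMap ℚ (AlgebraicClosure F))) :=
    (Polynomial.aeval_algHom_apply (Matrix.toLinAlgEquiv' (R := AlgebraicClosure F)
      (n := Fin n)).toAlgHom (M.map ι) _).symm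
  rw [h5, Matrix.toLin'_apply, hβ, hb, Module.End.aeval_apply_of_hasEigenvector (hv s), hβy,
    eval_map, ← aeval_def, aeval_algHom_apply, haev]

end Pool.Agent.PR
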